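import Pool.Agent.Lib_helper44.G4I.Defs

/-!
# G4I, block POLY: a polynomial without zeros in the open unit disc
-/

namespace Pool.Agent.G4I

open Polynomial

theorem poly_roots_pr {n : ℕ} {P : Polynomial ℂ} (hd : P.natDegree ≤ n) (h0 : P.coeff 0 = 1)
    (h1 : ∀ z : ℂ, ‖z‖ < 1 → P.eval z ≠ 0) :
    ∃ α : Fin n → ℂ, (∀ j, ‖α j‖ ≤ 1) ∧ ∀ z : ℂ, P.eval z = ∏ j, (1 - α j * z) := by
  induction n generalizing P with
  | zero =>
    refine ⟨fun _ => 0, fun j => j.elim0, fun z => ?_⟩
    rw [Polynomial.eq_C_of_natDegree_le_zero hd, Polynomial.eval_C, h0]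
    simp
  | succ n ih =>
    by_cases hn : P.natDegree ≤ n
    · obtain ⟨α, ha, hb⟩ := ih hn h0 h1
      refine ⟨Fin.cons 0 α, fun j => ?_, fun z => ?_⟩
      · refine Fin.cases ?_ (fun i => ?_) j
        · simp
        · simpa using ha i
      · rw [Fin.prod_univ_succ, hb z]
        simp
    · have hdeg : P.degree ≠ 0 := by
        intro h
        have := Polynomial.natDegree_eq_of_degree_eq_some (n := 0) (by simpa using h)
        omega
      obtain ⟨r, hr⟩ := IsAlgClosed.exists_root P hdeg
      obtain ⟨Q, hQ⟩ := Polynomial.dvd_iff_isRoot.2 hr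
      have hP0 : P ≠ 0 := by
        rintro rfl
        simp at h0
      have hQ0 : Q ≠ 0 := by
        rintro rfl
        rw [mul_zero] at hQ
        exact hP0 hQ
      have hr1 : 1 ≤ ‖r‖ := by
        by_contra h
        exact h1 r (not_le.1 h) hr
      have hr0 : r ≠ 0 := by
        rintro rfl
        norm_num at hr1
      have hc : -r * Q.coeff 0 = 1 := by
        rw [← h0, hQ, Polynomial.mul_coeff_zero]
        simp
      have hnd : P.natDegree = 1 + Q.natDegree := by
        rw [hQ, Polynomial.natDegree_mul (Polynomial.X_sub_C_ne_zero r) hQ0,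
          Polynomial.natDegree_X_sub_C]
      obtain ⟨α, ha, hb⟩ := ih (P := Polynomial.C (-r) * Q)
        ((Polynomial.natDegree_C_mul_le _ _).trans (by omega))
        (by rw [Polynomial.coeff_C_mul]; exact hc)
        (fun z hz h => h1 z hz (by
          rw [hQ, Polynomial.eval_mul]
          rw [Polynomial.eval_mul, Polynomial.eval_C] at h
          rcases mul_eq_zero.1 h with h | h
          · exact absurd (neg_eq_zero.1 h) hr0
          · rw [h, mul_zero]))
      refine ⟨Fin.cons r⁻¹ α, fun j => ?_, fun z => ?_⟩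
      · refine Fin.cases ?_ (fun i => ?_) j
        · rw [Fin.cons_zero, norm_inv]
          exact inv_le_one_of_one_le₀ hr1
        · simpa using ha i
      · rw [Fin.prod_univ_succ]
        simp only [Fin.cons_zero, Fin.cons_succ]
        rw [← hb z, Polynomial.eval_mul, Polynomial.eval_C, hQ, Polynomial.eval_mul,
          Polynomial.eval_sub, Polynomial.eval_X, Polynomial.eval_C]
        field_simp
        ring

end Pool.Agent.G4I
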