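import Pool.Agent.Lib_helper38.G4I.MUL
import Pool.Agent.Lib_helper38.G4I.POLY
import Pool.Agent.Lib_helper44.G4I.Defs

/-!
# G4I, block EULP: Euler factors
-/

namespace Pool.Agent.G4I

open NumberField

section series

/-- absolute convergence at `z` with value `v` -/
def EULP_good (z : ℂ) (F : PowerSeries ℂ) (v : ℂ) : Prop :=
  Summable (fun k => ‖F.coeff k * z ^ k‖) ∧ ∑' k, F.coeff k * z ^ k = v

theorem EULP_good_mul {z : ℂ} {F G : PowerSeries ℂ} {v w : ℂ} (hF : EULP_good z F v)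
    (hG : EULP_good z G w) : EULP_good z (F * G) (v * w) := by
  have key : ∀ n, ∑ kl ∈ Finset.HasAntidiagonal.antidiagonal n,
      (F.coeff kl.1 * z ^ kl.1) * (G.coeff kl.2 * z ^ kl.2) = (F * G).coeff n * z ^ n := by
    intro n
    rw [PowerSeries.coeff_mul, Finset.sum_mul]
    refine Finset.sum_congr rfl fun x hx => ?_
    rw [← Finset.HasAntidiagonal.mem_antidiagonal.1 hx, pow_add]
    ring
  refine ⟨?_, ?_⟩
  · have h := summable_norm_sum_mul_antidiagonal_of_summable_norm hF.1 hG.1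
    simpa only [key] using h
  · have h := tsum_mul_tsum_eq_tsum_sum_antidiagonal_of_summable_norm hF.1 hG.1
    rw [← hF.2, ← hG.2, h]
    exact tsum_congr fun n => (key n).symm

theorem EULP_good_one (z : ℂ) : EULP_good z 1 1 := by
  have h : ∀ k, (1 : PowerSeries ℂ).coeff k * z ^ k = if k = 0 then 1 else 0 := by
    intro k
    rw [PowerSeries.coeff_one]
    split_ifs with h
    · rw [h]; simp
    · simp
  refine ⟨?_, ?_⟩
  · simp only [h]
    refine summable_of_ne_finset_zero (s := {0}) fun k hk => ?_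
    rw [if_neg (by simpa using hk)]
    simp
  · simp only [h]
    rw [tsum_ite_eq]

theorem EULP_geom {a : ℂ} (z : ℂ) (h : ‖a * z‖ < 1) :
    EULP_good z (PowerSeries.mk fun k => a ^ k) (1 - a * z)⁻¹ := by
  have h1 : ∀ k, (PowerSeries.mk fun k => a ^ k).coeff k * z ^ k = (a * z) ^ k := by
    intro k
    rw [PowerSeries.coeff_mk, mul_pow]
  refine ⟨?_, ?_⟩
  · simp only [h1, norm_pow]
    exact summable_geometric_of_lt_one (norm_nonneg _) h
  · simp only [h1]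
    exact tsum_geometric_of_norm_lt_one h

theorem EULP_good_prod {n : ℕ} (α : Fin n → ℂ) {z : ℂ} (h : ∀ j, ‖α j * z‖ < 1) :
    EULP_good z (∏ j, PowerSeries.mk fun k => α j ^ k) (∏ j, (1 - α j * z))⁻¹ := by
  rw [← Finset.prod_inv_distrib]
  have : ∀ s : Finset (Fin n), EULP_good z (∏ j ∈ s, PowerSeries.mk fun k => α j ^ k)
      (∏ j ∈ s, (1 - α j * z)⁻¹) := by
    classical
    intro s
    induction s using Finset.induction_on with
    | empty => simpa using EULP_good_one z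
    | insert j s hj ih =>
      rw [Finset.prod_insert hj, Finset.prod_insert hj]
      exact EULP_good_mul (EULP_geom z (h j)) ih
  exact this Finset.univ

theorem EULP_geom_mul (a : ℂ) :
    (PowerSeries.mk fun k => a ^ k) * ((1 - Polynomial.C a * Polynomial.X : Polynomial ℂ) :
      PowerSeries ℂ) = 1 := by
  ext k
  push_cast
  rw [mul_sub, mul_one]
  cases k with
  | zero => simp
  | succ k =>
    rw [map_sub, ← mul_assoc, PowerSeries.coeff_succ_mul_X, PowerSeries.coeff_mul_C]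
    simp [pow_succ, PowerSeries.coeff_one]

/-- a formal inverse of a polynomial without zeros in the disc converges there -/
theorem EULP_inverse {P : Polynomial ℂ} (h0 : P.coeff 0 = 1)
    (h1 : ∀ z : ℂ, ‖z‖ < 1 → P.eval z ≠ 0) {c : ℕ → ℂ}
    (hc : PowerSeries.mk c * (P : PowerSeries ℂ) = 1) {z : ℂ} (hz : ‖z‖ < 1) :
    HasSum (fun k => c k * z ^ k) (P.eval z)⁻¹ := by
  obtain ⟨α, ha, hb⟩ := poly_roots_pr (le_refl P.natDegree) h0 h1
  have hP : P = ∏ j, (1 - Polynomial.C (α j) * Polynomial.X) := by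
    refine Polynomial.funext fun w => ?_
    rw [hb w, Polynomial.eval_prod]
    simp
  have hD : (∏ j, PowerSeries.mk fun k => α j ^ k) * (P : PowerSeries ℂ) = 1 := by
    have : (P : PowerSeries ℂ) = ∏ j, ((1 - Polynomial.C (α j) * Polynomial.X : Polynomial ℂ) :
        PowerSeries ℂ) := by
      conv_lhs => rw [hP]
      have h := map_prod (Polynomial.coeToPowerSeries.ringHom (R := ℂ))
        (fun j => 1 - Polynomial.C (α j) * Polynomial.X) Finset.univ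
      simpa only [Polynomial.coeToPowerSeries.ringHom_apply] using h
    rw [this, ← Finset.prod_mul_distrib]
    exact Finset.prod_eq_one fun j _ => EULP_geom_mul _
  have heq : PowerSeries.mk c = ∏ j, PowerSeries.mk fun k => α j ^ k := by
    have h2 : (P : PowerSeries ℂ) * (∏ j, PowerSeries.mk fun k => α j ^ k) = 1 := by
      rw [mul_comm]; exact hD
    exact left_inv_eq_right_inv hc h2
  have hgood := EULP_good_prod α (z := z) (fun j => by
    rw [norm_mul]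
    calc ‖α j‖ * ‖z‖ ≤ 1 * ‖z‖ := mul_le_mul_of_nonneg_right (ha j) (norm_nonneg _)
      _ < 1 := by rwa [one_mul])
  rw [← heq, ← hb z] at hgood
  have h3 : ∀ k, (PowerSeries.mk c).coeff k * z ^ k = c k * z ^ k := fun k => by
    rw [PowerSeries.coeff_mk]
  have h4 := hgood.1
  have h5 := hgood.2
  simp only [h3] at h4 h5
  rw [← h5]
  exact (Summable.of_norm h4).hasSum

end series

variable {K : Type} [Field K] [NumberField K]

/-- all prime divisors of `A` are in `T` -/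
def EULP_supp (T : Finset (Ideal (𝓞 K))) (A : Ideal (𝓞 K)) : Prop :=
  ∀ 𝔭 : Ideal (𝓞 K), 𝔭.IsPrime → A ≤ 𝔭 → 𝔭 ∈ T

open Classical in
/-- the sum over the ideals of norm `p ^ k` with support in `T` -/
noncomputable def EULP_c (φ : Ideal (𝓞 K) →* ℂ) (p : ℕ) (T : Finset (Ideal (𝓞 K))) (k : ℕ) : ℂ :=
  ∑ A ∈ (nIdeals K (p ^ k)).filter (EULP_supp T), φ A

theorem EULP_step (φ : Ideal (𝓞 K) →* ℂ) {p : ℕ} (hp : p.Prime) {T : Finset (Ideal (𝓞 K))}
    {𝔭 : Ideal (𝓞 K)} (h𝔭 : 𝔭.IsPrime) (h0 : 𝔭 ≠ ⊥) (hT : 𝔭 ∉ T) {f : ℕ}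
    (hf : Ideal.absNorm 𝔭 = p ^ f) (k : ℕ) :
    EULP_c φ p (open Classical in insert 𝔭 T) k = EULP_c φ p T k +
      φ 𝔭 * (if f ≤ k then EULP_c φ p (open Classical in insert 𝔭 T) (k - f) else 0) := by
  classical
  unfold EULP_c
  rw [← Finset.sum_filter_not_add_sum_filter _ (fun A => A ≤ 𝔭), Finset.filter_filter,
    Finset.filter_filter]
  congr 1
  · refine Finset.sum_congr (Finset.filter_congr fun A _ => ?_) fun _ _ => rfl
    constructor
    · rintro ⟨h1, h2⟩ 𝔮 h𝔮 hA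
      rcases Finset.mem_insert.1 (h1 𝔮 h𝔮 hA) with h | h
      · exact absurd (h ▸ hA) h2
      · exact h
    · intro h
      exact ⟨fun 𝔮 h𝔮 hA => Finset.mem_insert_of_mem (h 𝔮 h𝔮 hA), fun hA => hT (h 𝔭 h𝔭 hA)⟩
  · split_ifs with hk
    · rw [Finset.mul_sum]
      symm
      refine Finset.sum_bij' (fun A _ => 𝔭 * A) (fun A _ => if h : A ≤ 𝔭 then
        (Ideal.dvd_iff_le.2 h).choose else ⊥) ?_ ?_ ?_ ?_ ?_
      · intro A hA
        rw [Finset.mem_filter, MUL_mem] at hA ⊢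
        obtain ⟨⟨h1, h2⟩, h3⟩ := hA
        refine ⟨⟨?_, ?_⟩, ?_, Ideal.mul_le_left⟩
        · rw [map_mul, h1, hf, ← pow_add, Nat.add_sub_cancel' hk]
        · rw [Ne, Ideal.mul_eq_bot, not_or]
          exact ⟨h0, h2⟩
        · intro 𝔮 h𝔮 h
          rcases (Ideal.IsPrime.mul_le h𝔮).1 h with h | h
          · haveI := h𝔭.isMaximal h0
            rw [Ideal.IsMaximal.eq_of_le this h𝔮.ne_top h]
            exact Finset.mem_insert_self _ _
          · exact h3 𝔮 h𝔮 h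
      · intro A hA
        rw [Finset.mem_filter, MUL_mem] at hA
        obtain ⟨⟨h1, h2⟩, h3, h4⟩ := hA
        rw [dif_pos h4]
        have h5 := (Ideal.dvd_iff_le.2 h4).choose_spec
        set B := (Ideal.dvd_iff_le.2 h4).choose
        rw [Finset.mem_filter, MUL_mem]
        refine ⟨⟨?_, ?_⟩, ?_⟩
        · have h6 := congrArg Ideal.absNorm h5
          rw [h1, map_mul, hf] at h6
          have h7 : p ^ k = p ^ f * p ^ (k - f) := by
            rw [← pow_add, Nat.add_sub_cancel' hk]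
          rw [h7] at h6
          exact (Nat.eq_of_mul_eq_mul_left (pow_pos hp.pos f) h6).symm
        · rintro h6
          rw [h6, Ideal.mul_bot] at h5
          exact h2 h5
        · intro 𝔮 h𝔮 h
          refine h3 𝔮 h𝔮 ?_
          rw [h5]
          exact Ideal.mul_le_right.trans h
      · intro A hA
        rw [dif_pos Ideal.mul_le_left]
        have h5 := (Ideal.dvd_iff_le.2 (Ideal.mul_le_left : 𝔭 * A ≤ 𝔭)).choose_spec
        exact (mul_left_cancel₀ h0 h5).symm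
      · intro A hA
        rw [Finset.mem_filter] at hA
        rw [dif_pos hA.2.2]
        exact (Ideal.dvd_iff_le.2 hA.2.2).choose_spec.symm
      · intro A hA
        rw [map_mul]
    · rw [mul_zero]
      refine Finset.sum_eq_zero fun A hA => ?_
      rw [Finset.mem_filter, MUL_mem] at hA
      obtain ⟨⟨h1, h2⟩, h3, h4⟩ := hA
      have h5 := Ideal.absNorm_dvd_absNorm_of_le h4
      rw [h1, hf] at h5
      exact absurd ((Nat.pow_dvd_pow_iff_le_right hp.one_lt).1 h5) hk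

theorem EULP_step_series (φ : Ideal (𝓞 K) →* ℂ) {p : ℕ} (hp : p.Prime)
    {T : Finset (Ideal (𝓞 K))}
    {𝔭 : Ideal (𝓞 K)} (h𝔭 : 𝔭.IsPrime) (h0 : 𝔭 ≠ ⊥) (hT : 𝔭 ∉ T) {f : ℕ}
    (hf : Ideal.absNorm 𝔭 = p ^ f) :
    PowerSeries.mk (EULP_c φ p (open Classical in insert 𝔭 T)) *
      (1 - PowerSeries.C (φ 𝔭) * PowerSeries.X ^ f) = PowerSeries.mk (EULP_c φ p T) := by
  ext k
  rw [mul_sub, mul_one, mul_left_comm, map_sub, PowerSeries.coeff_C_mul,
    PowerSeries.coeff_mul_X_pow', PowerSeries.coeff_mk, PowerSeries.coeff_mk,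
    EULP_step φ hp h𝔭 h0 hT hf k, PowerSeries.coeff_mk]
  ring

theorem EULP_empty (φ : Ideal (𝓞 K) →* ℂ) {p : ℕ} (hp : p.Prime) :
    PowerSeries.mk (EULP_c φ p ∅) = 1 := by
  classical
  ext k
  rw [PowerSeries.coeff_mk, PowerSeries.coeff_one]
  unfold EULP_c
  split_ifs with hk
  · rw [hk, pow_zero, MUL_one, Finset.filter_true_of_mem, Finset.sum_singleton,
      ← Ideal.one_eq_top, map_one]
    intro A hA 𝔭 h𝔭 h
    rw [Finset.mem_singleton] at hA
    exact absurd (top_le_iff.1 (hA ▸ h)) h𝔭.ne_top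
  · refine Finset.sum_eq_zero fun A hA => ?_
    rw [Finset.mem_filter, MUL_mem] at hA
    obtain ⟨⟨h1, h2⟩, h3⟩ := hA
    have hA : A ≠ ⊤ := by
      rintro rfl
      rw [Ideal.absNorm_top] at h1
      exact hk (by
        by_contra h
        exact absurd h1.symm (Nat.one_lt_pow h hp.one_lt).ne')
    obtain ⟨𝔪, h𝔪, hle⟩ := Ideal.exists_le_maximal A hA
    exact absurd (h3 𝔪 h𝔪.isPrime hle) (Finset.notMem_empty _)

theorem EULP_prod (φ : Ideal (𝓞 K) →* ℂ) {p : ℕ} (hp : p.Prime) (f : Ideal (𝓞 K) → ℕ)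
    (T : Finset (Ideal (𝓞 K)))
    (hT : ∀ 𝔭 ∈ T, 𝔭.IsPrime ∧ 𝔭 ≠ ⊥ ∧ Ideal.absNorm 𝔭 = p ^ f 𝔭) :
    PowerSeries.mk (EULP_c φ p T) *
      ∏ 𝔭 ∈ T, (1 - PowerSeries.C (φ 𝔭) * PowerSeries.X ^ f 𝔭) = 1 := by
  classical
  induction T using Finset.induction_on with
  | empty => rw [Finset.prod_empty, mul_one, EULP_empty φ hp]
  | insert 𝔭 T h𝔭 ih =>
    rw [Finset.prod_insert h𝔭, ← mul_assoc]
    obtain ⟨h1, h2, h3⟩ := hT 𝔭 (Finset.mem_insert_self _ _)
    have := EULP_step_series φ hp h1 h2 h𝔭 h3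
    rw [this]
    exact ih fun 𝔮 h𝔮 => hT 𝔮 (Finset.mem_insert_of_mem h𝔮)

/-- EULP: Euler factors -/
theorem isum_euler_pr (φ : Ideal (𝓞 K) →* ℂ) (h1 : ∀ 𝔞, ‖φ 𝔞‖ ≤ 1) {p : ℕ} (hp : p.Prime) :
    ∃ P : Polynomial ℂ, P.natDegree ≤ Module.finrank ℚ K ∧ P.coeff 0 = 1 ∧
      (∀ z : ℂ, ‖z‖ < 1 → P.eval z ≠ 0) ∧
      ∀ z : ℂ, ‖z‖ < 1 → HasSum (fun k : ℕ => isum φ (p ^ k) * z ^ k) (P.eval z)⁻¹ := by
  classical
  have hfin : Set.Finite {𝔭 : Ideal (𝓞 K) | 𝔭.IsPrime ∧ (p : 𝓞 K) ∈ 𝔭} := by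
    refine (Ideal.finite_setOfPred_absNorm_le (S := 𝓞 K)
      (p ^ Module.finrank ℤ (𝓞 K))).subset ?_
    rintro 𝔭 ⟨-, h⟩
    have h2 : Ideal.absNorm 𝔭 ∣ p ^ Module.finrank ℤ (𝓞 K) := by
      rw [← Ideal.absNorm_span_natCast]
      exact Ideal.absNorm_dvd_absNorm_of_le ((Ideal.span_singleton_le_iff_mem _).2 h)
    exact Nat.le_of_dvd (pow_pos hp.pos _) h2
  set S := hfin.toFinset with hS
  have hSmem : ∀ 𝔭, 𝔭 ∈ S ↔ 𝔭.IsPrime ∧ (p : 𝓞 K) ∈ 𝔭 := fun 𝔭 => by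
    rw [hS, Set.Finite.mem_toFinset]; rfl
  have hex : ∀ 𝔭 : Ideal (𝓞 K), ∃ f : ℕ, 𝔭 ∈ S → Ideal.absNorm 𝔭 = p ^ f := by
    intro 𝔭
    by_cases h : 𝔭 ∈ S
    · have h2 : Ideal.absNorm 𝔭 ∣ p ^ Module.finrank ℤ (𝓞 K) := by
        rw [← Ideal.absNorm_span_natCast]
        exact Ideal.absNorm_dvd_absNorm_of_le
          ((Ideal.span_singleton_le_iff_mem _).2 ((hSmem 𝔭).1 h).2)
      obtain ⟨f, -, hf⟩ := (Nat.dvd_prime_pow hp).1 h2
      exact ⟨f, fun _ => hf⟩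
    · exact ⟨0, fun h2 => absurd h2 h⟩
  choose f hf using hex
  have hp0 : (p : 𝓞 K) ≠ 0 := Nat.cast_ne_zero.2 hp.ne_zero
  have hbot : ∀ 𝔭 ∈ S, 𝔭 ≠ ⊥ := by
    rintro 𝔭 h rfl
    exact hp0 ((Submodule.mem_bot _).1 ((hSmem _).1 h).2)
  have hf1 : ∀ 𝔭 ∈ S, f 𝔭 ≠ 0 := by
    intro 𝔭 h h2
    have := hf 𝔭 h
    rw [h2, pow_zero, Ideal.absNorm_eq_one_iff] at this
    exact ((hSmem 𝔭).1 h).1.ne_top this
  have hsum : ∑ 𝔭 ∈ S, f 𝔭 ≤ Module.finrank ℚ K := by
    have hdvd : ∏ 𝔭 ∈ S, 𝔭 ∣ Ideal.span {(p : 𝓞 K)} := by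
      refine Finset.prod_primes_dvd _ (fun 𝔭 h => ?_) fun 𝔭 h => ?_
      · exact Ideal.prime_of_isPrime (hbot 𝔭 h) ((hSmem 𝔭).1 h).1
      · rw [Ideal.dvd_iff_le, Ideal.span_singleton_le_iff_mem]
        exact ((hSmem 𝔭).1 h).2
    have h2 := map_dvd (Ideal.absNorm (S := 𝓞 K)) hdvd
    rw [Ideal.absNorm_span_natCast, map_prod, Finset.prod_congr rfl hf,
      Finset.prod_pow_eq_pow_sum, RingOfIntegers.rank] at h2
    exact (Nat.pow_dvd_pow_iff_le_right hp.one_lt).1 h2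
  set P : Polynomial ℂ := ∏ 𝔭 ∈ S, (1 - Polynomial.C (φ 𝔭) * Polynomial.X ^ f 𝔭) with hP
  have hP0 : P.coeff 0 = 1 := by
    rw [Polynomial.coeff_zero_eq_eval_zero, hP, Polynomial.eval_prod]
    refine Finset.prod_eq_one fun 𝔭 h => ?_
    simp [hf1 𝔭 h]
  have hP1 : ∀ z : ℂ, ‖z‖ < 1 → P.eval z ≠ 0 := by
    intro z hz h
    rw [hP, Polynomial.eval_prod, Finset.prod_eq_zero_iff] at h
    obtain ⟨𝔭, h𝔭, h⟩ := h
    simp only [Polynomial.eval_sub, Polynomial.eval_one, Polynomial.eval_mul, Polynomial.eval_C,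
      Polynomial.eval_pow, Polynomial.eval_X] at h
    have h2 : φ 𝔭 * z ^ f 𝔭 = 1 := (sub_eq_zero.1 h).symm
    have h3 : ‖φ 𝔭 * z ^ f 𝔭‖ < 1 := by
      rw [norm_mul, norm_pow]
      calc ‖φ 𝔭‖ * ‖z‖ ^ f 𝔭 ≤ 1 * ‖z‖ ^ f 𝔭 :=
            mul_le_mul_of_nonneg_right (h1 𝔭) (pow_nonneg (norm_nonneg _) _)
        _ < 1 := by
            rw [one_mul]
            exact pow_lt_one₀ (norm_nonneg _) hz (hf1 𝔭 h𝔭)
    rw [h2, norm_one] at h3
    exact lt_irrefl _ h3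
  refine ⟨P, ?_, hP0, hP1, fun z hz => ?_⟩
  · rw [hP]
    refine (Polynomial.natDegree_prod_le _ _).trans ((Finset.sum_le_sum fun 𝔭 _ => ?_).trans hsum)
    refine (Polynomial.natDegree_sub_le _ _).trans ?_
    rw [Polynomial.natDegree_one]
    exact max_le (Nat.zero_le _) (Polynomial.natDegree_C_mul_X_pow_le _ _)
  · have hc : PowerSeries.mk (fun k => isum φ (p ^ k)) * (P : PowerSeries ℂ) = 1 := by
      have h2 := EULP_prod φ hp f S fun 𝔭 h => ⟨((hSmem 𝔭).1 h).1, hbot 𝔭 h, hf 𝔭 h⟩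
      have h3 : (P : PowerSeries ℂ) =
          ∏ 𝔭 ∈ S, (1 - PowerSeries.C (φ 𝔭) * PowerSeries.X ^ f 𝔭) := by
        have h4 := map_prod (Polynomial.coeToPowerSeries.ringHom (R := ℂ))
          (fun 𝔭 => 1 - Polynomial.C (φ 𝔭) * Polynomial.X ^ f 𝔭) S
        rw [hP]
        rw [Polynomial.coeToPowerSeries.ringHom_apply] at h4
        rw [h4]
        refine Finset.prod_congr rfl fun 𝔭 _ => ?_
        rw [Polynomial.coeToPowerSeries.ringHom_apply]
        push_cast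
        rfl
      have h5 : (fun k => isum φ (p ^ k)) = EULP_c φ p S := by
        funext k
        unfold EULP_c isum
        rw [Finset.filter_true_of_mem]
        intro A hA 𝔭 h𝔭 h
        rw [MUL_mem] at hA
        rw [hSmem]
        refine ⟨h𝔭, ?_⟩
        have h6 := h (Ideal.absNorm_mem A)
        rw [hA.1] at h6
        push_cast at h6
        exact h𝔭.mem_of_pow_mem _ h6
      rw [h3, h5]
      exact h2
    exact EULP_inverse hP0 hP1 hc hz

end Pool.Agent.G4I
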