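import Pool.Agent.Lib_helper44.G4I.Defs

/-!
# G4I, block MUL: multiplicativity of the coefficients
-/

namespace Pool.Agent.G4I

open NumberField

variable {K : Type} [Field K] [NumberField K]

theorem MUL_mem {n : ℕ} {A : Ideal (𝓞 K)} :
    A ∈ nIdeals K n ↔ Ideal.absNorm A = n ∧ A ≠ ⊥ := by
  classical
  unfold nIdeals
  rw [Finset.mem_filter, Set.Finite.mem_toFinset]
  constructor
  · exact fun h => h.2
  · exact fun h => ⟨h.1.le, h⟩

theorem MUL_one : nIdeals K 1 = {⊤} := by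
  ext A
  rw [MUL_mem, Finset.mem_singleton, Ideal.absNorm_eq_one_iff]
  constructor
  · exact fun h => h.1
  · rintro rfl
    exact ⟨rfl, top_ne_bot⟩

theorem MUL_top_of_coprime {m n : ℕ} (h : m.Coprime n) {B : Ideal (𝓞 K)}
    (hm : (m : 𝓞 K) ∈ B) (hn : (n : 𝓞 K) ∈ B) : B = ⊤ := by
  rw [Ideal.eq_top_iff_one]
  have h1 := Nat.gcd_eq_gcd_ab m n
  rw [h.gcd_eq_one] at h1
  have h2 : ((1 : ℤ) : 𝓞 K) = ((m * m.gcdA n + n * m.gcdB n : ℤ) : 𝓞 K) := by
    rw [← h1]; simp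
  push_cast at h2
  rw [h2]
  exact B.add_mem (B.mul_mem_right _ hm) (B.mul_mem_right _ hn)

/-- the reconstruction of the factors -/
theorem MUL_left {m n : ℕ} (h : m.Coprime n) {B C : Ideal (𝓞 K)}
    (hB : Ideal.absNorm B = m) (hC : Ideal.absNorm C = n) :
    B * C ⊔ Ideal.span {(m : 𝓞 K)} = B := by
  have hmB : (m : 𝓞 K) ∈ B := hB ▸ Ideal.absNorm_mem B
  have hnC : (n : 𝓞 K) ∈ C := hC ▸ Ideal.absNorm_mem C
  apply le_antisymm
  · refine sup_le Ideal.mul_le_left ?_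
    rwa [Ideal.span_singleton_le_iff_mem]
  · have h1 : C ⊔ Ideal.span {(m : 𝓞 K)} = ⊤ :=
      MUL_top_of_coprime h (Ideal.mem_sup_right (Ideal.mem_span_singleton_self _))
        (Ideal.mem_sup_left hnC)
    calc B = B * (C ⊔ Ideal.span {(m : 𝓞 K)}) := by rw [h1, Ideal.mul_top]
      _ = B * C ⊔ B * Ideal.span {(m : 𝓞 K)} := Ideal.mul_sup _ _ _
      _ ≤ B * C ⊔ Ideal.span {(m : 𝓞 K)} := sup_le_sup_left Ideal.mul_le_right _

theorem MUL_split {m n : ℕ} (h : m.Coprime n) {A : Ideal (𝓞 K)} (hA : Ideal.absNorm A = m * n) :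
    (A ⊔ Ideal.span {(m : 𝓞 K)}) * (A ⊔ Ideal.span {(n : 𝓞 K)}) = A := by
  have hmem : (m : 𝓞 K) * n ∈ A := by
    have := Ideal.absNorm_mem A
    rw [hA] at this
    simpa using this
  have htop : Ideal.span {(n : 𝓞 K)} ⊔ Ideal.span {(m : 𝓞 K)} = ⊤ :=
    MUL_top_of_coprime h (Ideal.mem_sup_right (Ideal.mem_span_singleton_self _))
        (Ideal.mem_sup_left (Ideal.mem_span_singleton_self _))
  apply le_antisymm
  · rw [Ideal.mul_sup, Ideal.sup_mul, Ideal.sup_mul]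
    refine sup_le (sup_le Ideal.mul_le_left ?_) (sup_le Ideal.mul_le_left ?_)
    · exact Ideal.mul_le_right
    · rw [Ideal.span_singleton_mul_span_singleton, Ideal.span_singleton_le_iff_mem]
      exact hmem
  · calc A = A * (Ideal.span {(n : 𝓞 K)} ⊔ Ideal.span {(m : 𝓞 K)}) := by
          rw [htop, Ideal.mul_top]
      _ = A * Ideal.span {(n : 𝓞 K)} ⊔ Ideal.span {(m : 𝓞 K)} * A := by
          rw [Ideal.mul_sup, mul_comm A (Ideal.span {(m : 𝓞 K)})]
      _ ≤ (A ⊔ Ideal.span {(m : 𝓞 K)}) * (A ⊔ Ideal.span {(n : 𝓞 K)}) := by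
          refine sup_le (Ideal.mul_mono le_sup_left le_sup_right)
            (Ideal.mul_mono le_sup_right le_sup_left)

theorem MUL_norm {m n : ℕ} (h : m.Coprime n) {A : Ideal (𝓞 K)}
    (hA : Ideal.absNorm A = m * n) : Ideal.absNorm (A ⊔ Ideal.span {(m : 𝓞 K)}) ∣ m := by
  have h1 : Ideal.absNorm (A ⊔ Ideal.span {(m : 𝓞 K)}) ∣ m ^ Module.finrank ℤ (𝓞 K) := by
    rw [← Ideal.absNorm_span_natCast]
    exact Ideal.absNorm_dvd_absNorm_of_le le_sup_right
  have h2 : Ideal.absNorm (A ⊔ Ideal.span {(m : 𝓞 K)}) ∣ m * n := by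
    rw [← hA]
    exact Ideal.absNorm_dvd_absNorm_of_le le_sup_left
  have h3 : (Ideal.absNorm (A ⊔ Ideal.span {(m : 𝓞 K)})).Coprime n :=
    Nat.Coprime.coprime_dvd_left h1 (Nat.Coprime.pow_left _ h)
  exact h3.dvd_of_dvd_mul_right h2

/-- MUL: multiplicativity -/
theorem isum_mult_pr (φ : Ideal (𝓞 K) →* ℂ) : (isumA φ).IsMultiplicative := by
  classical
  refine ⟨?_, fun {m n} h => ?_⟩
  · show isum φ 1 = 1
    unfold isum
    rw [MUL_one, Finset.sum_singleton, ← Ideal.one_eq_top, map_one]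
  · show isum φ (m * n) = isum φ m * isum φ n
    by_cases hm : m = 0
    · rw [hm, zero_mul, isum_zero, zero_mul]
    by_cases hn : n = 0
    · rw [hn, mul_zero, isum_zero, mul_zero]
    unfold isum
    rw [Finset.sum_mul_sum, ← Finset.sum_product']
    refine Finset.sum_bij' (fun A _ => (A ⊔ Ideal.span {(m : 𝓞 K)}, A ⊔ Ideal.span {(n : 𝓞 K)}))
      (fun x _ => x.1 * x.2) ?_ ?_ ?_ ?_ ?_
    · intro A hA
      rw [MUL_mem] at hA
      have h1 := MUL_norm h hA.1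
      have h2 := MUL_norm h.symm (A := A) (by rw [hA.1, mul_comm])
      have h3 := congrArg Ideal.absNorm (MUL_split h hA.1)
      rw [map_mul, hA.1] at h3
      have hm' : 0 < m := Nat.pos_of_ne_zero hm
      have hn' : 0 < n := Nat.pos_of_ne_zero hn
      have h4 := Nat.le_of_dvd hm' h1
      have h5 := Nat.le_of_dvd hn' h2
      have h6 : Ideal.absNorm (A ⊔ Ideal.span {(m : 𝓞 K)}) = m := by
        by_contra hne
        have h7 : Ideal.absNorm (A ⊔ Ideal.span {(m : 𝓞 K)}) < m := lt_of_le_of_ne h4 hne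
        have : Ideal.absNorm (A ⊔ Ideal.span {(m : 𝓞 K)}) *
          Ideal.absNorm (A ⊔ Ideal.span {(n : 𝓞 K)}) < m * n :=
          Nat.mul_lt_mul_of_lt_of_le h7 h5 hn'
        omega
      have h8 : Ideal.absNorm (A ⊔ Ideal.span {(n : 𝓞 K)}) = n := by
        rw [h6] at h3
        exact Nat.eq_of_mul_eq_mul_left hm' h3
      rw [Finset.mem_product, MUL_mem, MUL_mem]
      refine ⟨⟨h6, ?_⟩, ⟨h8, ?_⟩⟩
      · intro hb
        exact hA.2 (le_bot_iff.1 (hb ▸ le_sup_left))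
      · intro hb
        exact hA.2 (le_bot_iff.1 (hb ▸ le_sup_left))
    · rintro ⟨B, C⟩ hx
      rw [Finset.mem_product, MUL_mem, MUL_mem] at hx
      rw [MUL_mem]
      refine ⟨by rw [map_mul, hx.1.1, hx.2.1], ?_⟩
      rw [Ne, Ideal.mul_eq_bot, not_or]
      exact ⟨hx.1.2, hx.2.2⟩
    · intro A hA
      rw [MUL_mem] at hA
      exact MUL_split h hA.1
    · rintro ⟨B, C⟩ hx
      rw [Finset.mem_product, MUL_mem, MUL_mem] at hx
      refine Prod.ext ?_ ?_
      · exact MUL_left h hx.1.1 hx.2.1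
      · show B * C ⊔ Ideal.span {(n : 𝓞 K)} = C
        rw [mul_comm B C]
        exact MUL_left h.symm hx.2.1 hx.1.1
    · intro A hA
      rw [MUL_mem] at hA
      show φ A = φ (A ⊔ Ideal.span {(m : 𝓞 K)}) * φ (A ⊔ Ideal.span {(n : 𝓞 K)})
      rw [← map_mul, MUL_split h hA.1]

end Pool.Agent.G4I
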